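import Pool.Agent.Lib.helper17.Erdos

namespace Pool.Agent.Results.MP_4a087e_lc.Lower

open SimpleGraph Finset

/-- The injective map `π` is a `d`-diameter ordering of `G`. -/
def DiamOrd {V : Type} (G : SimpleGraph V) (π : V → ℝ) (d : ℕ) : Prop :=
  Function.Injective π ∧ ∀ u v (p : G.Walk u v), p.support.IsChain (fun a b => π a < π b) →
    ∀ x ∈ p.support, ∀ y ∈ p.support, G.dist x y ≤ d

theorem path {V : Type} {G : SimpleGraph V} {π : V → ℝ} {u v} {p : G.Walk u v}
    (h : p.support.IsChain fun a b => π a < π b) : p.IsPath := by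
  rw [Walk.isPath_def]
  haveI : Trans (fun a b => π a < π b) (fun a b => π a < π b) (fun a b => π a < π b) :=
    ⟨lt_trans⟩
  exact (List.isChain_iff_pairwise.1 h).imp fun e q => by rw [q] at e; exact lt_irrefl _ e

theorem roy {V : Type} {G : SimpleGraph V} {π : V → ℝ} (i : Function.Injective π) {k : ℕ}
    (hk : 0 < k) (h : ∀ c : V → Fin k, ∃ u v, G.Adj u v ∧ c u = c v) :
    ∃ u v, ∃ p : G.Walk u v, p.support.IsChain (fun a b => π a < π b) ∧ p.length = k := by
  classical
  by_contra n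
  let P : V → ℕ → Prop := fun u j => ∃ v, ∃ p : G.Walk u v,
    p.support.IsChain (fun a b => π a < π b) ∧ p.length = j
  have s : ∀ u, P u (Nat.findGreatest (P u) (k - 1)) := fun u =>
    Nat.findGreatest_spec (P := P u) (Nat.zero_le _) ⟨u, Walk.nil, by simp, rfl⟩
  have key : ∀ u v, G.Adj u v → π u < π v →
      Nat.findGreatest (P v) (k - 1) < Nat.findGreatest (P u) (k - 1) := fun u v a l => by
    obtain ⟨w, p, c, e⟩ := s v
    have c' : (Walk.cons a p).support.IsChain fun a b => π a < π b := by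
      rw [Walk.support_cons, p.support_eq_cons]
      exact List.IsChain.cons_cons l (p.support_eq_cons ▸ c)
    have b := Nat.findGreatest_le (P := P v) (k - 1)
    have : p.length + 1 ≠ k := fun q => n ⟨u, w, Walk.cons a p, c', q⟩
    exact Nat.le_findGreatest (by omega) ⟨w, Walk.cons a p, c', by simp [e]⟩
  obtain ⟨u, v, a, e⟩ := h fun u => ⟨Nat.findGreatest (P u) (k - 1),
    lt_of_le_of_lt (Nat.findGreatest_le _) (by omega)⟩
  simp only [Fin.mk.injEq] at e
  rcases lt_or_gt_of_ne (i.ne a.ne) with l | l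
  · exact (key u v a l).ne' e
  · exact (key v u a.symm l).ne e

theorem pull {V W : Type} {T : SimpleGraph V} (f : V ↪ W) {a b : W} (w : (T.map f).Walk a b) :
    ∀ u, a = f u → ∃ v, b = f v ∧ ∃ q : T.Walk u v, q.length = w.length := by
  induction w with
  | nil => exact fun u e => ⟨u, e, Walk.nil, rfl⟩
  | cons h p ih =>
    rintro u rfl
    obtain ⟨x, y, a, e, e'⟩ := (map_adj _ _ _ _).1 h
    obtain rfl := f.injective e
    obtain ⟨v, g, q, l⟩ := ih y e'.symm
    exact ⟨v, g, Walk.cons a q, by simp [l]⟩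

theorem base (k t : ℕ) (hk : 0 < k) (ht : (64 * k ^ 4 + 1) ^ (2 * k + 1) ≤ t) :
    ∃ T : SimpleGraph (Fin (k * (4 * t))), (∀ v (c : T.Walk v v), c.IsCycle → 2 * k < c.length) ∧
      ∀ c : Fin (k * (4 * t)) → Fin k, ∃ u v, T.Adj u v ∧ c u = c v := by
  classical
  obtain ⟨T, h1, -, -, h4⟩ := Pool.Agent.Lib.helper17.Erdos.step (2 * k) k (64 * k ^ 4) t _
    (Fintype.card_fin _) hk ht le_rfl
  refine ⟨T, h1, fun c => ?_⟩
  by_contra h
  push Not at h
  have k1 : (1 : ℝ) ≤ k := by exact_mod_cast hk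
  have t0 : 0 < t := lt_of_lt_of_le (by positivity) ht
  have d : (0 : ℝ) ≤ 1 - 1 / (16 * (k : ℝ) ^ 2) := by
    rw [sub_nonneg, div_le_one (by positivity)]; nlinarith
  have hD : (k : ℝ) ^ (k * 4) * (1 - 1 / (16 * (k : ℝ) ^ 2)) ^ (64 * k ^ 4) < 1 := by
    have a : (k : ℝ) ^ (k * 4) < Real.exp k ^ (k * 4) :=
      pow_lt_pow_left₀ (by linarith [Real.add_one_le_exp (k : ℝ)]) (by positivity) (by omega)
    have b : (1 - 1 / (16 * (k : ℝ) ^ 2)) ^ (64 * k ^ 4) ≤
        Real.exp (-(1 / (16 * (k : ℝ) ^ 2))) ^ (64 * k ^ 4) :=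
      pow_le_pow_left₀ d (by linarith [Real.add_one_le_exp (-(1 / (16 * (k : ℝ) ^ 2)))]) _
    refine ((mul_le_mul_of_nonneg_left b (by positivity)).trans_lt
      (mul_lt_mul_of_pos_right a (by positivity))).trans_eq ?_
    rw [← Real.exp_nat_mul, ← Real.exp_nat_mul, ← Real.exp_add, Real.exp_eq_one_iff]
    push_cast
    field_simp
    ring
  have a := h4.trans_lt (by
    rw [← mul_assoc k, pow_mul, mul_comm t, pow_mul _ (64 * k ^ 4), ← mul_pow]
    exact pow_lt_one₀ (by positivity) hD (by positivity))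
  rw [Nat.cast_lt_one, card_eq_zero] at a
  simp only [filter_eq_empty_iff] at a
  exact a (by simp) h

theorem result (k n : ℕ) (hn : 4 * k * (64 * k ^ 4 + 1) ^ (2 * k + 1) ≤ n) :
    ∃ G : SimpleGraph (Fin n), ∀ π d, DiamOrd G π d → k ≤ d := by
  rcases Nat.eq_zero_or_pos k with rfl | hk
  · exact ⟨⊥, fun _ _ _ => Nat.zero_le _⟩
  obtain ⟨T, h1, h2⟩ := base k _ hk le_rfl
  let f := Fin.castLEEmb (show k * (4 * (64 * k ^ 4 + 1) ^ (2 * k + 1)) ≤ n by linarith)
  refine ⟨T.map f, fun π d ⟨i, h⟩ => ?_⟩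
  obtain ⟨u, v, p, c, l⟩ := roy (π := π ∘ f) (i.comp f.injective) hk h2
  have := h _ _ (p.map (Embedding.map f T).toHom) (by
    rw [Walk.support_map, List.isChain_map]; exact c) _ (Walk.start_mem_support _) _
    (Walk.end_mem_support _)
  by_contra n
  obtain ⟨w, e⟩ := (p.map (Embedding.map f T).toHom).reachable.exists_walk_length_eq_dist
  obtain ⟨v', g, q, l'⟩ := pull f w u rfl
  obtain rfl : v = v' := f.injective g
  have b := q.length_bypass_le_length
  obtain ⟨x, -, -, z, hz, lz⟩ := (path c).exists_isCycle_length_le_add_of_ne q.bypass_isPath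
    fun e => by rw [← e] at b; omega
  have := h1 x z hz
  omega

end Pool.Agent.Results.MP_4a087e_lc.Lower
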